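import Mathlib

set_option autoImplicit false

/-!
# MP_bbbdfa_lc: closed discrete subspaces of strongly star-Hurewicz spaces

Let `D` be a closed discrete set of size `lam` in a regular space, with open sets `G d ∋ d` whose
closures contain no other point of `D`.  Index by `d ∈ D` all the pairs of a set of a cofinal family
of countable subsets `C d` of `D` and a function `f d` of an unbounded family, each pair `lam` times.
The `n`-th cover consists of the complement of `D` and the sets `G d` minus the closures of the sets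
`G c` for the first `f d n` points `c ≠ d` of `C d`.
-/

namespace Pool.Agent.Results.MP_bbbdfa_lc.ClosedDiscrete

open Set Cardinal Topology Filter

universe u

/-- the star of the set `A` with respect to the family `U` -/
def St {X : Type u} (A : Set X) (U : Set (Set X)) : Set X :=
  {x | ∃ W ∈ U, (W ∩ A).Nonempty ∧ x ∈ W}

/-- `X` is strongly star-Hurewicz: for each sequence of open covers `U n` there are finite sets
`F n` such that every point lies in the star of `F n` with respect to `U n` for all but finitely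
many `n`. -/
def StronglyStarHurewicz (X : Type u) [TopologicalSpace X] : Prop :=
  ∀ U : ℕ → Set (Set X), (∀ n, (∀ W ∈ U n, IsOpen W) ∧ ∀ x, ∃ W ∈ U n, x ∈ W) →
    ∃ F : ℕ → Set X, (∀ n, (F n).Finite) ∧ ∀ x, ∀ᶠ n in atTop, x ∈ St (F n) (U n)

/-- The bounding number `𝔟`: the least size of a family of functions `ℕ → ℕ` which is unbounded
under eventual domination. -/
noncomputable def bounding : Cardinal.{0} :=
  sInf {κ | ∃ B : Set (ℕ → ℕ), #B = κ ∧ ¬ ∃ g : ℕ → ℕ, ∀ f ∈ B, ∀ᶠ n in atTop, f n ≤ g n}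

/-- `cof([κ]^ℵ₀)`: the least size of a family of countable subsets of (a set of size) `κ` such that
every countable subset is contained in a member of the family. -/
noncomputable def cofCountable (κ : Cardinal.{0}) : Cardinal.{0} :=
  sInf {μ | ∃ C : Set (Set κ.out), #C = μ ∧ (∀ c ∈ C, c.Countable) ∧
    ∀ s : Set κ.out, s.Countable → ∃ c ∈ C, s ⊆ c}

/-- `λ`: the least `κ` with `𝔟 ≤ κ ≤ 𝔠` and `cof([κ]^ℵ₀) = κ` -/
noncomputable def lam : Cardinal.{0} :=
  sInf {κ | bounding ≤ κ ∧ κ ≤ 𝔠 ∧ cofCountable κ = κ}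

/-! ### The cardinals -/

theorem bounding_spec : ∃ B : Set (ℕ → ℕ), #B = bounding ∧
    ¬ ∃ g : ℕ → ℕ, ∀ f ∈ B, ∀ᶠ n in atTop, f n ≤ g n := by
  have h : bounding ∈ {κ | ∃ B : Set (ℕ → ℕ), #B = κ ∧
      ¬ ∃ g : ℕ → ℕ, ∀ f ∈ B, ∀ᶠ n in atTop, f n ≤ g n} := by
    refine csInf_mem ⟨_, Set.univ, rfl, ?_⟩
    rintro ⟨g, hg⟩
    obtain ⟨n, hn⟩ := (hg (fun n => g n + 1) trivial).exists
    omega
  exact h

theorem aleph0_lt_bounding : ℵ₀ < bounding := by
  obtain ⟨B, hB, hun⟩ := bounding_spec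
  rw [← hB]
  by_contra hcon
  rw [not_lt, Cardinal.mk_le_aleph0_iff] at hcon
  apply hun
  rcases B.eq_empty_or_nonempty with rfl | hne
  · exact ⟨fun _ => 0, fun f hf => absurd hf (notMem_empty f)⟩
  · obtain ⟨e, he⟩ := (Set.countable_coe_iff.1 hcon).exists_eq_range hne
    refine ⟨fun n => ∑ k ∈ Finset.range (n + 1), e k n, ?_⟩
    intro f hf
    rw [he] at hf
    obtain ⟨k, rfl⟩ := hf
    filter_upwards [eventually_ge_atTop k] with n hn
    exact Finset.single_le_sum (f := fun k => e k n) (fun _ _ => Nat.zero_le _)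
      (Finset.mem_range.2 (by omega))

theorem bounding_le_continuum : bounding ≤ 𝔠 := by
  obtain ⟨B, hB, -⟩ := bounding_spec
  rw [← hB]
  refine (Cardinal.mk_set_le B).trans ?_
  simp

theorem cofCountable_spec (κ : Cardinal.{0}) : ∃ C : Set (Set κ.out), #C = cofCountable κ ∧
    (∀ c ∈ C, c.Countable) ∧ ∀ s : Set κ.out, s.Countable → ∃ c ∈ C, s ⊆ c := by
  have h : cofCountable κ ∈ {μ | ∃ C : Set (Set κ.out), #C = μ ∧ (∀ c ∈ C, c.Countable) ∧
      ∀ s : Set κ.out, s.Countable → ∃ c ∈ C, s ⊆ c} :=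
    csInf_mem ⟨_, {c | c.Countable}, rfl, fun _ h => h, fun s hs => ⟨s, hs, subset_rfl⟩⟩
  exact h

theorem le_cofCountable {κ : Cardinal.{0}} (hκ : ℵ₀ < κ) : κ ≤ cofCountable κ := by
  obtain ⟨C, hC, hcount, hcof⟩ := cofCountable_spec κ
  rw [← hC]
  by_contra hcon
  rw [not_le] at hcon
  have h1 : #(⋃₀ C : Set κ.out) = κ := by
    have : (⋃₀ C : Set κ.out) = Set.univ := by
      rw [eq_univ_iff_forall]
      intro x
      obtain ⟨c, hc, hx⟩ := hcof {x} (countable_singleton x)
      exact ⟨c, hc, hx rfl⟩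
    rw [this, Cardinal.mk_univ, Cardinal.mk_out]
  have h2 : #(⋃₀ C : Set κ.out) ≤ #C * ⨆ s : C, #(s : Set κ.out) := Cardinal.mk_sUnion_le C
  have h3 : (⨆ s : C, #(s : Set κ.out)) ≤ ℵ₀ :=
    ciSup_le' fun s => (hcount s.1 s.2).le_aleph0
  have h4 : κ ≤ #C * ℵ₀ := h1.symm.le.trans (h2.trans (mul_le_mul_right h3 _))
  have h5 : #C * ℵ₀ < κ := Cardinal.mul_lt_of_lt hκ.le hcon hκ
  exact absurd h4 (not_le.2 h5)

theorem cofCountable_continuum : cofCountable 𝔠 = 𝔠 := by
  apply le_antisymm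
  · have h1 : cofCountable 𝔠 ≤ #{c : Set (𝔠 : Cardinal.{0}).out | c.Countable} :=
      csInf_le' ⟨{c | c.Countable}, rfl, fun _ h => h, fun s hs => ⟨s, hs, subset_rfl⟩⟩
    refine h1.trans ?_
    have h2 : #{c : Set (𝔠 : Cardinal.{0}).out | c.Countable} ≤
        #{c : Set (𝔠 : Cardinal.{0}).out // #c ≤ ℵ₀} :=
      Cardinal.mk_le_of_injective (f := fun c => ⟨c.1, c.2.le_aleph0⟩) (by
        intro a b h
        exact Subtype.ext (Subtype.mk.inj h))
    refine h2.trans ?_
    refine (Cardinal.mk_bounded_set_le _ _).trans ?_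
    rw [Cardinal.mk_out, max_eq_left Cardinal.aleph0_le_continuum]
    simp
  · exact le_cofCountable Cardinal.aleph0_lt_continuum

theorem lam_spec : bounding ≤ lam ∧ lam ≤ 𝔠 ∧ cofCountable lam = lam := by
  have h : lam ∈ {κ | bounding ≤ κ ∧ κ ≤ 𝔠 ∧ cofCountable κ = κ} :=
    csInf_mem ⟨𝔠, bounding_le_continuum, le_rfl, cofCountable_continuum⟩
  exact h

/-! ### The theorem -/

/-- **Main theorem.** If `X` is a regular (and `T₁`) strongly star-Hurewicz space and `D` is a
closed discrete subspace of `X`, then `|D| < λ`. -/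
theorem result (X : Type u) [TopologicalSpace X] [T3Space X] (hX : StronglyStarHurewicz X)
    (D : Set X) (hD : IsClosed D) (hdisc : DiscreteTopology D) :
    #D < Cardinal.lift.{u} lam := by
  classical
  by_contra hcon
  rw [not_lt] at hcon
  obtain ⟨hb, -, hcof⟩ := lam_spec
  have hω : ℵ₀ < lam := aleph0_lt_bounding.trans_le hb
  set I : Type := (lam).out with hI
  have hIc : #I = lam := Cardinal.mk_out lam
  -- the points
  obtain ⟨ι⟩ : Nonempty (I ↪ D) := by
    rw [← Cardinal.lift_mk_le', hIc]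
    simpa using hcon
  have hIne : Nonempty I := Cardinal.mk_ne_zero_iff.1 (by
    rw [hIc]; exact (Cardinal.aleph0_pos.trans hω).ne')
  -- the families
  obtain ⟨C, hC, hcount, hcofin⟩ := cofCountable_spec lam
  rw [hcof] at hC
  obtain ⟨B, hB, hun⟩ := bounding_spec
  have hBne : #B ≠ 0 := by
    rw [hB]
    exact (Cardinal.aleph0_pos.trans aleph0_lt_bounding).ne'
  have hcard : #I = #(C × B × I) := by
    have h1 : #B * #I = lam := by
      rw [hIc]
      exact Cardinal.mul_eq_right hω.le (hB ▸ hb) hBne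
    rw [Cardinal.mk_prod, Cardinal.mk_prod]
    simp only [Cardinal.lift_id]
    rw [h1, hC, hIc, Cardinal.mul_eq_self hω.le]
  obtain ⟨σ⟩ := Cardinal.eq.1 hcard
  -- enumerations
  have henum : ∀ c : C, ∃ e : ℕ → I, (c : Set I) ⊆ range e := by
    intro c
    rcases (c : Set I).eq_empty_or_nonempty with h | h
    · exact ⟨fun _ => Classical.arbitrary I, by rw [h]; exact empty_subset _⟩
    · obtain ⟨e, he⟩ := (hcount c.1 c.2).exists_eq_range h
      exact ⟨e, he.subset⟩
  choose en hen using henum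
  -- the open sets
  have hG : ∀ i : I, ∃ G : Set X, IsOpen G ∧ (ι i : X) ∈ G ∧
      ∀ j : I, (ι j : X) ∈ closure G → j = i := by
    intro i
    have hcl : IsClosed ((fun d : D => (d : X)) '' {ι i}ᶜ) :=
      hD.isClosedEmbedding_subtypeVal.isClosedMap _ (isClosed_discrete _)
    have hnot : (ι i : X) ∈ ((fun d : D => (d : X)) '' {ι i}ᶜ)ᶜ := by
      rintro ⟨d, hd, hdi⟩
      exact hd (Subtype.ext hdi)
    obtain ⟨t, ht, htc, hts⟩ := exists_mem_nhds_isClosed_subset (hcl.isOpen_compl.mem_nhds hnot)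
    refine ⟨interior t, isOpen_interior, mem_interior_iff_mem_nhds.2 ht, fun j hj => ?_⟩
    have h1 : (ι j : X) ∈ t := (closure_minimal interior_subset htc) hj
    by_contra hne
    exact hts h1 ⟨ι j, fun h => hne (ι.injective h), rfl⟩
  choose G hGo hGm hGc using hG
  let V : ℕ → I → Set X := fun n i =>
    G i ∩ ⋂ k ∈ Finset.range ((σ i).2.1.1 n), (if en (σ i).1 k = i then Set.univ
      else (closure (G (en (σ i).1 k)))ᶜ)
  have hVo : ∀ n i, IsOpen (V n i) := by
    intro n i
    refine (hGo i).inter (isOpen_biInter_finset fun k _ => ?_)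
    split_ifs
    · exact isOpen_univ
    · exact isClosed_closure.isOpen_compl
  have hVm : ∀ n i, (ι i : X) ∈ V n i := by
    intro n i
    refine ⟨hGm i, ?_⟩
    rw [mem_iInter₂]
    intro k _
    split_ifs with h
    · trivial
    · intro hcl
      exact h (hGc _ i hcl).symm
  have hVj : ∀ n i j, (ι i : X) ∈ V n j → i = j := fun n i j h =>
    hGc j i (subset_closure h.1)
  have hD'cl : IsClosed (range fun i => (ι i : X)) := by
    have : (range fun i => (ι i : X)) = (fun d : D => (d : X)) '' (range ι) := by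
      rw [← range_comp]; rfl
    rw [this]
    exact hD.isClosedEmbedding_subtypeVal.isClosedMap _ (isClosed_discrete _)
  let U : ℕ → Set (Set X) := fun n => insert (range fun i => (ι i : X))ᶜ (range (V n))
  obtain ⟨F, hFfin, hF⟩ := hX U (by
    intro n
    refine ⟨?_, ?_⟩
    · rintro W (rfl | ⟨i, rfl⟩)
      · exact hD'cl.isOpen_compl
      · exact hVo n i
    · intro x
      by_cases hx : x ∈ range fun i => (ι i : X)
      · obtain ⟨i, rfl⟩ := hx
        exact ⟨V n i, Or.inr ⟨i, rfl⟩, hVm n i⟩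
      · exact ⟨_, Or.inl rfl, hx⟩)
  -- the traces of the points of the finite sets
  let tr : X → I := fun p => if h : ∃ j, p ∈ G j then h.choose else Classical.arbitrary I
  have htr : ∀ p, (∃ j, p ∈ G j) → p ∈ G (tr p) := by
    intro p hp
    show p ∈ G (if h : ∃ j, p ∈ G j then h.choose else Classical.arbitrary I)
    rw [dif_pos hp]
    exact hp.choose_spec
  let S : Set I := tr '' (⋃ n, F n)
  have hS : S.Countable := (countable_iUnion fun n => (hFfin n).countable).image _
  obtain ⟨c₀, hc₀, hSc⟩ := hcofin S hS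
  have hidx : ∀ p, ∃ m, (p ∈ ⋃ n, F n) → en ⟨c₀, hc₀⟩ m = tr p := by
    intro p
    by_cases hp : p ∈ ⋃ n, F n
    · obtain ⟨m, hm⟩ := hen ⟨c₀, hc₀⟩ (hSc ⟨p, hp, rfl⟩)
      exact ⟨m, fun _ => hm⟩
    · exact ⟨0, fun h => absurd h hp⟩
  choose m hm using hidx
  let g : ℕ → ℕ := fun n => ∑ p ∈ (hFfin n).toFinset, (m p + 1)
  have hg : ∀ n, ∀ p ∈ F n, m p + 1 ≤ g n := fun n p hp =>
    Finset.single_le_sum (f := fun p => m p + 1) (fun _ _ => Nat.zero_le _)
      ((hFfin n).mem_toFinset.2 hp)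
  obtain ⟨f, hf, hfg⟩ : ∃ f ∈ B, ¬ ∀ᶠ n in atTop, f n ≤ g n := by
    by_contra h
    push Not at h
    exact hun ⟨g, h⟩
  -- an index outside of `S`
  obtain ⟨t, ht⟩ : ∃ t : I, σ.symm (⟨c₀, hc₀⟩, ⟨f, hf⟩, t) ∉ S := by
    by_contra h
    push Not at h
    have hinj : Function.Injective fun t : I => (⟨_, h t⟩ : S) := by
      intro t t' htt
      have h1 := σ.symm.injective (congrArg Subtype.val htt)
      simpa using h1
    have h2 : #I ≤ #S := Cardinal.mk_le_of_injective hinj
    rw [hIc] at h2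
    exact absurd (h2.trans hS.le_aleph0) (not_le.2 hω)
  set i : I := σ.symm (⟨c₀, hc₀⟩, ⟨f, hf⟩, t) with hi
  have hσ : σ i = (⟨c₀, hc₀⟩, ⟨f, hf⟩, t) := by rw [hi, Equiv.apply_symm_apply]
  have hfreq : ∃ᶠ n in atTop, ¬ f n ≤ g n := Filter.not_eventually.1 hfg
  obtain ⟨n, hn, W, hW, ⟨p, hpW, hpF⟩, hiW⟩ := (hfreq.and_eventually (hF (ι i : X))).exists
  have hWV : W = V n i := by
    rcases hW with rfl | ⟨j, rfl⟩
    · exact absurd ⟨i, rfl⟩ hiW
    · rw [hVj n i j hiW]
  rw [hWV] at hpW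
  have hpU : p ∈ ⋃ n, F n := mem_iUnion.2 ⟨n, hpF⟩
  have h1 : p ∈ G (tr p) := htr p ⟨i, hpW.1⟩
  have h2 : tr p ≠ i := by
    intro h
    exact ht (h ▸ ⟨p, hpU, rfl⟩)
  have h3 : m p < f n := by
    have := hg n p hpF
    omega
  have h4 := mem_iInter₂.1 hpW.2 (m p) (by rw [hσ]; exact Finset.mem_range.2 h3)
  rw [hσ] at h4
  have h5 : en ⟨c₀, hc₀⟩ (m p) = tr p := hm p hpU
  simp only at h4
  rw [h5, if_neg h2] at h4
  exact h4 (subset_closure h1)

end Pool.Agent.Results.MP_bbbdfa_lc.ClosedDiscrete
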